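import Pool.Agent.P.MP_06afd2_nt.Main

namespace Pool.Agent.P.MP_06afd2_nt.OldPositiveDensity

open Pool.Agent.P.MP_06afd2_nt Filter

/-- For all large `X`, at least `X / 1000` integers `n` with `2 ≤ n ≤ X` have a set `P n`
different from `P m` for every `m` with `2 ≤ m < n`. -/
theorem result : ∀ᶠ X : ℕ in atTop, (X : ℝ) / 1000 ≤
    ({n : ℕ | 2 ≤ n ∧ n ≤ X ∧ ∀ m : ℕ, 2 ≤ m → m < n → P m ≠ P n}.ncard : ℝ) :=
  positive_density

end Pool.Agent.P.MP_06afd2_nt.OldPositiveDensity
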